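import Pool.Agent.Helper72.LSr.S6a

/-!
# Section 6: LR-M5 (proved)
-/

namespace Pool.Agent.Helper62.LSr

open Finset
open scoped Classical
open Pool.Agent.Helper72.LSr

variable {V : Type} {j : ℕ} {G : SimpleGraph V} {S : Finset V} {k A B : ℕ} {w : V}

theorem cc_nonneg (h : ML V j G S k A B w) {y x : V} (hx : x ∈ Qs G S w y) : 0 ≤ (cv k (A + 1) B G S) w x := by
  unfold Qs at hx
  rw [mem_filter] at hx
  exact h.hc w h.hw x hx.1 hx.2.1

theorem sg_nonneg (h : ML V j G S k A B w) (y : V) : 0 ≤ (sq k (A + 1) B G S) w (Qs G S w y) := by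
  unfold Helper72.LSr.sq
  have h1 : 0 ≤ ∑ x ∈ Qs G S w y, (cv k (A + 1) B G S) w x := sum_nonneg (fun x hx => cc_nonneg h hx)
  have h2 := K_nonneg G (Qs G S w y) 2
  linarith

theorem cc_le_sg (h : ML V j G S k A B w) {y x : V} (hx : x ∈ Qs G S w y) :
    (cv k (A + 1) B G S) w x ≤ (sq k (A + 1) B G S) w (Qs G S w y) := by
  unfold Helper72.LSr.sq
  have h1 : (cv k (A + 1) B G S) w x ≤ ∑ x ∈ Qs G S w y, (cv k (A + 1) B G S) w x :=
    single_le_sum (f := fun x => (cv k (A + 1) B G S) w x) (fun x hx => cc_nonneg h hx) hx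
  have h2 := K_nonneg G (Qs G S w y) 2
  linarith

/-- `c_wx ≤ G3` for `x ∈ Q_y`; and `c_wx + c_wx' ≤ G3` for `x ∈ Q_y`, `x' ∈ Q_y'`, `y ≠ y'` -/
theorem ml_c_le (h : ML V j G S k A B w) {y x : V} (hy : y ∈ NH G S w) (hx : x ∈ Qs G S w y) :
    (cv k (A + 1) B G S) w x ≤ ∑ y ∈ NH G S w, (sq k (A + 1) B G S) w (Qs G S w y) := by
  have h1 : (sq k (A + 1) B G S) w (Qs G S w y) ≤ ∑ y ∈ NH G S w, (sq k (A + 1) B G S) w (Qs G S w y) :=
    single_le_sum (f := fun y => (sq k (A + 1) B G S) w (Qs G S w y)) (fun y _ => sg_nonneg h y) hy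
  exact (cc_le_sg h hx).trans h1

theorem ml_c_add_le (h : ML V j G S k A B w) {y x y' x' : V} (hy : y ∈ NH G S w)
    (hx : x ∈ Qs G S w y) (hy' : y' ∈ NH G S w) (hx' : x' ∈ Qs G S w y') (hne : y ≠ y') :
    (cv k (A + 1) B G S) w x + (cv k (A + 1) B G S) w x' ≤ ∑ y ∈ NH G S w, (sq k (A + 1) B G S) w (Qs G S w y) := by
  have h1 : ∑ z ∈ ({y, y'} : Finset V), (sq k (A + 1) B G S) w (Qs G S w z)
      ≤ ∑ z ∈ NH G S w, (sq k (A + 1) B G S) w (Qs G S w z) := by
    apply sum_le_sum_of_subset_of_nonneg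
    · intro z hz
      rw [mem_insert, mem_singleton] at hz
      rcases hz with rfl | rfl
      · exact hy
      · exact hy'
    · intro z _ _
      exact sg_nonneg h z
  rw [sum_pair hne] at h1
  have h2 := cc_le_sg h hx
  have h3 := cc_le_sg h hx'
  linarith

theorem card_nb_lt (h : ML V j G S k A B w) : (nb G S w).card < S.card := by
  apply card_lt_card
  rw [ssubset_iff_of_subset (nb_subset G S w)]
  exact ⟨w, h.hw, not_mem_nb_self G S w⟩

/-- deletion of the edge `xx'` of `N_w`, with `c` chunks -/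
theorem ml_edge (h : ML V j G S k A B w) {x x' : V} (hx : x ∈ nb G S w) (hx' : x' ∈ nb G S w)
    (hadj : G.Adj x x') (c : ℕ) (hc : (k + 1 - (Dv k (A + 1) B G S) w) + (cv k (A + 1) B G S) w x' ≤ c * ((Dv k (A + 1) B G S) w - (Yv k (A + 1) B G S) w)) :
    ((Dv k (A + 1) B G S) w - 1 - (cv k (A + 1) B G S) w x') * (es k A B (j + 1)) - (es k (A + 1) B (j + 2) - K G (nb G S w ∩ nb G S x) (j + 1))
      - c * (Phi k A B (j + 1) G (nb G S w)) ≤ (Phi k A B (j + 2) G (nb G S w)) := by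
  have hr : rS k A B G (nb G S w) = (Dv k (A + 1) B G S) w - (Yv k (A + 1) B G S) w := rS_nb G S k A B w
  have hg : gS k A B G (nb G S w) = (Yv k (A + 1) B G S) w := gS_nb G S k A B w
  have hE := h.hE w h.hw
  have hY := h.hY
  have hrm : (0 : ℤ) ≤ (max (-(rS k (A + 1) B G S)) 0) := le_max_right _ _
  have hg0 : 0 ≤ gS k A B G (nb G S w) := by rw [hg]; linarith
  have hr1 : 1 ≤ rS k A B G (nb G S w) := by rw [hr]; linarith
  have h1 := edge_bound (i := j + 1) (fun m => h.th2 _ m (card_nb_lt h)) h.hk hx hx' hadj hr1 hg0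
  set R : Finset V := nb G (nb G S w) x \ nb G (nb G S w) x' with hR
  have hRsub : R ⊆ nb G (nb G S w) x := sdiff_subset
  have hRcard : (R.card : ℤ) ≤ (k + 1 - (Dv k (A + 1) B G S) w) + (cv k (A + 1) B G S) w x' := by
    rw [← card_Z G S h.hw k (A + 1) B x']
    have : R ⊆ nb G S w \ nb G S x' := by
      intro z hz
      rw [hR, mem_sdiff, mem_nb G (S := nb G S w), mem_nb G (S := nb G S w)] at hz
      rw [mem_sdiff]
      refine ⟨hz.1.1, fun hz' => hz.2 ⟨hz.1.1, ?_⟩⟩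
      rw [mem_nb] at hz'
      exact hz'.2
    exact_mod_cast card_le_card this
  have h2 := star_bound_chunks (i := j + 1) (fun m => h.th1 _ m) h.hk hx (by linarith) hg0 c R
    hRsub (by rw [hr]; linarith)
  have e1 : nb G (nb G S w) x \ R = nb G (nb G S w) x ∩ nb G (nb G S w) x' := by
    rw [hR, sdiff_sdiff_right_self]
    rfl
  rw [e1] at h2
  have e2 : nb G (nb G S w) x = nb G S w ∩ nb G S x := nb_nb G S w x
  have e3 := es_sA k A B (j + 1)
  have hl := es_nonneg k A B (j + 1)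
  have h3 := mul_le_mul_of_nonneg_right hRcard hl
  have e4 : K G (nb G (nb G S w) x) (j + 1) = K G (nb G S w ∩ nb G S x) (j + 1) := by rw [e2]
  rw [e4] at h2
  linarith

/-- `γ_w(Q) ≥ -κ` -/
theorem ml_gam (h : ML V j G S k A B w) {R : Finset V} (hR : R ⊆ nb G S w) :
    - (Phi k A B (j + 1) G (nb G S w)) ≤ gam k A B j G S w R := by
  have h0 := gam_add G S k A B j h.hw hR
  have hE := h.hE w h.hw
  have hD := h.hD w h.hw
  have hY := h.hY
  have hrm : (0 : ℤ) ≤ (max (-(rS k (A + 1) B G S)) 0) := le_max_right _ _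
  have hs : 0 ≤ (sq k (A + 1) B G S) w R := by
    unfold Helper72.LSr.sq
    have h1 : 0 ≤ ∑ x ∈ R, (cv k (A + 1) B G S) w x := sum_nonneg (fun x hx => by
      have := hR hx
      rw [mem_nb] at this
      exact h.hc w h.hw x this.1 this.2)
    have h2 := K_nonneg G R 2
    linarith
  have h1 := con_ge_min h.th1 h.hk h.hw hR hs (by linarith) (by linarith)
  have hl := es_nonneg k A B (j + 1)
  have h2 : 0 ≤ min ((sq k (A + 1) B G S) w R) ((Yv k (A + 1) B G S) w) := le_min hs (by linarith)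
  have h3 := mul_nonneg hl h2
  linarith

/-- (U) -/
theorem ml_U (h : ML V j G S k A B w) {x : V} (hx : x ∈ nb G S w) (hc : (cv k (A + 1) B G S) w x ≤ (Dv k (A + 1) B G S) w - (Yv k (A + 1) B G S) w - 1) :
    es k (A + 1) B (j + 2) - K G (nb G S w ∩ nb G S x) (j + 1) ≤ (Phi k A B (j + 1) G (nb G S w)) + (es k A B (j + 1)) * (cv k (A + 1) B G S) w x := by
  have hQ : nb G S w \ nb G S x ⊆ nb G S w := sdiff_subset
  have hY := h.hY
  have hrm : (0 : ℤ) ≤ (max (-(rS k (A + 1) B G S)) 0) := le_max_right _ _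
  have hx0 : 0 ≤ (cv k (A + 1) B G S) w x := by
    rw [mem_nb] at hx
    exact h.hc w h.hw x hx.1 hx.2
  have e0 := card_Z G S h.hw k (A + 1) B x
  have e1 := x1_gS G S k A B hQ
  have e2 := x1_rS G S k A B hQ
  have e3 := x1_Phi' G S k A B j hQ
  have e4 := aa_Z G S (w := w) k A B j x
  have h1 := Phi_nonneg (i := j + 1) (G := dst G w (nb G S w \ nb G S x))
    (S := insert w (nb G S w)) (k := k) (A := A) (B := B) (fun m => h.th1 _ m) h.hk
    (by rw [e2, e0]; linarith) (by rw [e1, e0]; linarith)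
  rw [e3, e0, e4] at h1
  have e5 : (es k A B (j + 1)) * (↑k + 1 - (Dv k (A + 1) B G S) w + (cv k (A + 1) B G S) w x - (↑k + 1 - (Dv k (A + 1) B G S) w)) = (es k A B (j + 1)) * (cv k (A + 1) B G S) w x := by ring
  rw [e5] at h1
  linarith

end Pool.Agent.Helper62.LSr
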