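import Pool.Agent.Helper72.LSr.N1

/-!
# Piece LR-N1: `neg_step`
-/

namespace Pool.Agent.Helper62.LSr

open Finset
open scoped Classical
open Pool.Agent.Helper72.LSr

/-- the potential condition: `es (U) (j+1) + s * es (U) j ≤ C (j+1)`, `U` the line without a
part of minimal size -/
def Pot (q a b : ℕ) (s : ℤ) (C : ℕ → ℤ) : Prop :=
  (∀ a0, a = a0 + 1 → ∀ j, es q a0 b (j + 1) + s * es q a0 b j ≤ C (j + 1)) ∧
  (a = 0 → ∀ b0, b = b0 + 1 → ∀ j, es q 0 b0 (j + 1) + s * es q 0 b0 j ≤ C (j + 1))

/-- lowering until `rho ≥ 0` -/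
theorem lower (n m R : ℤ) (C : ℕ → ℤ) (hR : 0 ≤ R) (hC : ∀ j, 0 ≤ C j) (N : ℕ) :
    ∀ (q a b : ℕ) (s : ℤ), (-rho q a b n m).toNat ≤ N → 1 ≤ q → 0 ≤ s → s ≤ q →
      1 ≤ Mm q a b n → 0 ≤ gg q a b n m → -(s * Mm q a b n) ≤ rho q a b n m →
      -R ≤ rho q a b n m → Pot q a b s C →
      ∃ k' A' B' : ℕ, 1 ≤ k' ∧ A' + B' = a + b ∧ 0 ≤ rho k' A' B' n m ∧ 0 ≤ gg k' A' B' n m ∧
        ∀ j, Vl q a b (j + 1) n m - s * R * C j ≤ Vl k' A' B' (j + 1) n m := by
  induction N with
  | zero =>
    intro q a b s hN hq hs hsq hM hg hrs hrR hP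
    have hr : 0 ≤ rho q a b n m := by
      have := Int.toNat_eq_zero.1 (Nat.le_zero.1 hN)
      linarith
    refine ⟨q, a, b, hq, rfl, hr, hg, fun j => ?_⟩
    have := mul_nonneg (mul_nonneg hs hR) (hC j)
    linarith
  | succ N ih =>
    intro q a b s hN hq hs hsq hM hg hrs hrR hP
    rcases le_or_gt 0 (rho q a b n m) with hr | hr
    · refine ⟨q, a, b, hq, rfl, hr, hg, fun j => ?_⟩
      have := mul_nonneg (mul_nonneg hs hR) (hC j)
      linarith
    · have hs1 : 1 ≤ s := by
        by_contra hcon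
        have : s = 0 := by omega
        rw [this, zero_mul, neg_zero] at hrs
        linarith
      obtain ⟨hP1, hP2⟩ := hP
      rcases a with _ | a0
      · -- all parts have size `q + 1`
        obtain ⟨k', A', B', h1, h2, h3, h4, h5⟩ := ih (q + 1) b 0 s
          (by rw [rho_sw]; omega) (by omega) hs (by push_cast; linarith)
          (by rw [Mm_sw]; linarith) (by rw [gg_sw]; linarith)
          (by rw [rho_sw, Mm_sw]; nlinarith) (by rw [rho_sw]; linarith)
          (by
            refine ⟨fun b0 hb j => ?_, fun hb b0 hb0 => ?_⟩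
            · rw [← es_sw, ← es_sw]
              exact hP2 rfl b0 hb j
            · omega)
        refine ⟨k', A', B', h1, by omega, h3, h4, fun j => ?_⟩
        have := h5 j
        rw [Vl_sw] at this
        exact this
      · obtain ⟨k', A', B', h1, h2, h3, h4, h5⟩ := ih q a0 (b + 1) (s - 1)
          (by rw [rho_low]; omega) hq (by linarith) (by linarith)
          (by rw [Mm_low]; linarith) (by rw [gg_low]; linarith)
          (by rw [rho_low, Mm_low]; nlinarith) (by rw [rho_low]; linarith)
          (by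
            refine ⟨fun a1 ha1 j => ?_, fun ha0 b0 hb0 j => ?_⟩
            · subst ha1
              have h := hP1 (a1 + 1) rfl j
              refine le_trans ?_ h
              rw [es_low]
              rcases j with _ | i
              · rw [es_zero, es_zero, es_zero]; simp
              · rw [es_low, es_sA q a1 b i]
                have h6 := es_nonneg q a1 b i
                have h7 : 0 ≤ ((q : ℤ) - (s - 1)) * es q a1 b i :=
                  mul_nonneg (by linarith) h6
                nlinarith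
            · have : b0 = b := by omega
              subst this
              subst ha0
              have h := hP1 0 rfl j
              have h6 := es_nonneg q 0 b0 j
              linarith)
        refine ⟨k', A', B', h1, by omega, h3, h4, fun j => ?_⟩
        have h6 := h5 j
        rw [Vl_low] at h6
        have h7 : es q a0 b j ≤ C j := by
          rcases j with _ | i
          · rw [es_zero]; exact hC 0
          · have h8 := hP1 a0 rfl i
            have h9 := mul_nonneg hs (es_nonneg q a0 b i)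
            linarith
        have h8 := es_nonneg q a0 b j
        have h9 : -(R * C j) ≤ es q a0 b j * rho q (a0 + 1) b n m := by
          have h10 : es q a0 b j * (-R) ≤ es q a0 b j * rho q (a0 + 1) b n m :=
            mul_le_mul_of_nonneg_left hrR h8
          have h11 : R * es q a0 b j ≤ R * C j := mul_le_mul_of_nonneg_left h7 hR
          linarith
        linarith

/-- the application of `lower` to the line `(a,b)_p` obtained by dropping a minimal part -/
theorem drop_lower (p a b : ℕ) (hp : 1 ≤ p) (n m : ℤ) (hg : 0 ≤ gg p a b n m)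
    (hM : 1 ≤ Mm p a b n) (hG : gg p a b n m ≤ (p + 1) * Mm p a b n) :
    ∃ k' A' B' : ℕ, 1 ≤ k' ∧ A' + B' = a + b ∧ 0 ≤ rho k' A' B' n m ∧ 0 ≤ gg k' A' B' n m ∧
      ∀ j, Vl p a b (j + 1) n m - p * gg p a b n m * es p a b j ≤ Vl k' A' B' (j + 1) n m := by
  have hrg := rho_add_gg p a b n m
  refine lower n m (gg p a b n m) (fun j => es p a b j) hg (fun j => es_nonneg _ _ _ _) _
    p a b p le_rfl hp (by positivity) le_rfl hM hg (by linarith) (by linarith) ⟨?_, ?_⟩
  · intro a0 ha j
    subst ha
    show _ ≤ es p (a0 + 1) b (j + 1)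
    rw [es_sA]
  · intro ha b0 hb j
    subst ha
    subst hb
    show _ ≤ es p 0 (b0 + 1) (j + 1)
    rw [es_sB]
    have := es_nonneg p 0 b0 j
    linarith

/-- (NEG) a valid line with `ν ≤ k` is dominated by a valid line with one part less -/
theorem neg_step (k A B : ℕ) (hk : 1 ≤ k) (hAB : 1 ≤ A + B) (n m : ℤ)
    (hr : 0 ≤ rho k A B n m) (hg : 0 ≤ gg k A B n m) (hnu : nu k A B n ≤ k) :
    ∃ k' A' B' : ℕ, 1 ≤ k' ∧ A' + B' + 1 = A + B ∧ 0 ≤ rho k' A' B' n m ∧ 0 ≤ gg k' A' B' n m ∧
      ∀ i, Vl k A B (i + 1) n m ≤ Vl k' A' B' (i + 1) n m := by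
  have hk0 : (0 : ℤ) ≤ k := by positivity
  have hth : th k A B n m ≤ 0 := by
    unfold gg at hg
    have : (k : ℤ) * (nu k A B n - k) ≤ 0 := mul_nonpos_of_nonneg_of_nonpos hk0 (by linarith)
    linarith
  have hth2 : (k + 1) * (nu k A B n - k - 1) ≤ th k A B n m := by
    unfold rho at hr
    linarith
  rcases A with _ | a
  · obtain ⟨b, rfl⟩ : ∃ b, B = b + 1 := ⟨B - 1, by omega⟩
    have e1 := th_sw k (b + 1) n m
    have e2 := nu_sw k (b + 1) n
    have hgg := gg_drop (k + 1) b 0 n m
    have hMm := Mm_drop (k + 1) b 0 n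
    rw [e1] at hgg
    rw [Mm_sw k (b + 1)] at hMm
    have hMv : Mm k 0 (b + 1) n = 2 * k + 1 - nu k 0 (b + 1) n := rfl
    obtain ⟨k', A', B', h1, h2, h3, h4, h5⟩ := drop_lower (k + 1) b 0 (by omega) n m
      (by rw [hgg]; linarith) (by rw [hMm, hMv]; push_cast; linarith)
      (by rw [hgg, hMm, hMv]; push_cast; nlinarith)
    refine ⟨k', A', B', h1, by omega, h3, h4, fun i => ?_⟩
    have h6 := h5 i
    rw [hgg] at h6
    rw [← Vl_sw, Vl_drop, e1]
    push_cast at h6 ⊢
    linarith
  · have hgg := gg_drop k a B n m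
    have hMm := Mm_drop k a B n
    have hMv : Mm k (a + 1) B n = 2 * k + 1 - nu k (a + 1) B n := rfl
    obtain ⟨k', A', B', h1, h2, h3, h4, h5⟩ := drop_lower k a B hk n m
      (by rw [hgg]; linarith) (by rw [hMm, hMv]; linarith)
      (by rw [hgg, hMm, hMv]; nlinarith)
    refine ⟨k', A', B', h1, by omega, h3, h4, fun i => ?_⟩
    have h6 := h5 i
    rw [hgg] at h6
    rw [Vl_drop]
    linarith

end Pool.Agent.Helper62.LSr
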